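import Pool.Agent.V11105.BratteliLineMeasure

/-!
Positive answer to Q1 of MP_17dcfb_an: some stationary generalized Bratteli diagram whose incidence
matrix is aperiodic irreducible with infinite Perron eigenvalue carries a finite tail-invariant
measure.
-/

open MeasureTheory Filter Set Topology Pool.Agent.V11105.Bratteli

theorem Pool.Agent.Results.MP_17dcfb_an.InfinitePerronFiniteMeasure.result :
    ∃ (V : Type) (_ : DecidableEq V) (F : V → V → ℕ), Countable V ∧ Infinite V ∧
      IsDiagram F ∧ IsAperiodicIrreducible F ∧ PerronInfinite F ∧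
      ∃ μ : Measure (PathSpace F), IsProbabilityMeasure μ ∧ TailInvariant μ ∧
        (∀ (n : ℕ) (p : FinPath F n), 0 < μ (cylinder p)) ∧ ∀ x : PathSpace F, μ {x} = 0 :=
  exists_infinite_perron_finite_measure
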