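import Pool.Agent.V11105.BratteliTwo

/-!
Negative answer to Q2 of MP_17dcfb_an: the stationary generalized Bratteli diagram of the
tridiagonal matrix carries no nonzero tail-invariant measure that is finite on cylinders, in
particular no tail-invariant probability measure that is positive on every cylinder.
-/

open MeasureTheory Filter Set Topology ENNReal Pool.Agent.V11105.Bratteli

theorem Pool.Agent.Results.MP_17dcfb_an.TridiagonalNoMeasure.result :
    (∀ μ : Measure (PathSpace tri), TailInvariant μ →
      (∀ (n : ℕ) (p : FinPath tri n), μ (cylinder p) ≠ ∞) → μ = 0) ∧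
    ¬ ∃ μ : Measure (PathSpace tri), IsProbabilityMeasure μ ∧ TailInvariant μ ∧
      ∀ (n : ℕ) (p : FinPath tri n), 0 < μ (cylinder p) :=
  tri_no_measure
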